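import Pool.Agent.H639Z.OP.Basic

set_option autoImplicit false
set_option maxHeartbeats 400000
open MeasureTheory Filter Topology
open scoped ENNReal

namespace Pool.Agent.H639Z.OP

variable {d : ℕ}

namespace Pot

theorem tangent {z s b : ℝ} (hz : 0 < z) (hs : 0 < s) (hb : 0 < b) :
    (1 + b) * s ^ (-b) - b * s ^ (-b - 1) * z ≤ z ^ (-b) := by
  have hr : 0 < z / s := div_pos hz hs
  have h1 : 1 + b - b * (z / s) ≤ (z / s) ^ (-b) := by
    rw [Real.rpow_def_of_pos hr]
    have h2 := Real.add_one_le_exp (Real.log (z / s) * -b)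
    have h3 := Real.log_le_sub_one_of_pos hr
    nlinarith
  have h4 : z ^ (-b) = s ^ (-b) * (z / s) ^ (-b) := by
    rw [← Real.mul_rpow hs.le hr.le, mul_div_cancel₀ _ hs.ne']
  have h5 : s ^ (-b - 1) = s ^ (-b) / s := Real.rpow_sub_one hs.ne' _
  have h6 : 0 < s ^ (-b) := Real.rpow_pos_of_pos hs _
  rw [h4, h5]
  have h7 := mul_le_mul_of_nonneg_left h1 h6.le
  have h8 : b * (s ^ (-b) / s) * z = s ^ (-b) * (b * (z / s)) := by ring
  rw [h8]
  linarith

theorem prod_tendsto {g D : ℕ → X d → ℝ} {C : ℝ} (hg : ∀ n, MemLp (g n) 2 volume)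
    (hD : ∀ n, MemLp (D n) 2 volume) (hC : ∀ n, ∫ x, g n x * g n x ≤ C)
    (h0 : Tendsto (fun n => ∫ x, D n x * D n x) atTop (𝓝 0)) :
    Tendsto (fun n => ∫ x, g n x * D n x) atTop (𝓝 0) := by
  have hC0 : 0 ≤ C := (integral_nonneg fun x => mul_self_nonneg _).trans (hC 0)
  rw [Metric.tendsto_nhds]
  intro ε hε
  set δ := ε / (2 * (C + 1)) with hδ
  have hδ0 : 0 < δ := by positivity
  have h1 : ∀ᶠ n in atTop, ∫ x, D n x * D n x < δ * (ε / 2) :=
    h0.eventually (gt_mem_nhds (by positivity))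
  filter_upwards [h1] with n hn
  rw [Real.dist_eq, sub_zero]
  have h2 : |∫ x, g n x * D n x| ≤ ∫ x, (δ * (g n x * g n x) + δ⁻¹ * (D n x * D n x)) := by
    refine abs_integral_le_integral_abs.trans (integral_mono (int_mul (hg n) (hD n)).abs
      (((int_mul (hg n) (hg n)).const_mul _).add ((int_mul (hD n) (hD n)).const_mul _))
      fun x => ?_)
    have h3 : δ * |g n x * D n x| ≤
        δ * (δ * (g n x * g n x) + δ⁻¹ * (D n x * D n x)) := by
      rw [mul_add, ← mul_assoc δ δ⁻¹, mul_inv_cancel₀ hδ0.ne', one_mul, abs_mul,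
        ← abs_mul_abs_self (g n x), ← abs_mul_abs_self (D n x)]
      nlinarith [sq_nonneg (δ * |g n x| - |D n x|), mul_nonneg (abs_nonneg (g n x))
        (abs_nonneg (D n x))]
    exact le_of_mul_le_mul_left h3 hδ0
  rw [integral_add ((int_mul (hg n) (hg n)).const_mul _) ((int_mul (hD n) (hD n)).const_mul _),
    integral_const_mul, integral_const_mul] at h2
  have h4 : δ * ∫ x, g n x * g n x ≤ δ * (C + 1) :=
    mul_le_mul_of_nonneg_left ((hC n).trans (by linarith)) hδ0.le
  have h5 : δ * (C + 1) = ε / 2 := by rw [hδ]; field_simp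
  have h6 : δ⁻¹ * ∫ x, D n x * D n x < ε / 2 := by
    rw [inv_mul_lt_iff₀ hδ0]; exact hn
  linarith

theorem Zn {p : ℝ} (hp : 0 < p) {V : X d → ℝ≥0∞} (hV : Adm p V) :
    MemLp (fun x => (V x ^ (-p / 2)).toReal) 2 volume ∧
      ∫ x, (V x ^ (-p / 2)).toReal * (V x ^ (-p / 2)).toReal ≤ 1 ∧ ∀ᵐ x, V x ≠ 0 := by
  have hm : Measurable fun x => V x ^ (-p) := hV.1.pow_const _
  have hne : ∫⁻ x, V x ^ (-p) ≠ ⊤ := (hV.2.trans_lt ENNReal.one_lt_top).ne
  have e : ∀ x, (V x ^ (-p / 2)).toReal ^ 2 = (V x ^ (-p)).toReal := by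
    intro x
    rw [← ENNReal.toReal_pow, ← ENNReal.rpow_natCast, ← ENNReal.rpow_mul]
    congr 2
    push_cast
    ring
  have hlt := ae_lt_top hm hne
  refine ⟨?_, ?_, ?_⟩
  · rw [memLp_two_iff_integrable_sq
      (hV.1.pow_const _).ennreal_toReal.aestronglyMeasurable]
    simp only [e]
    exact integrable_toReal_of_lintegral_ne_top hm.aemeasurable hne
  · simp only [← sq, e]
    rw [integral_toReal hm.aemeasurable hlt]
    exact ENNReal.toReal_le_of_le_ofReal zero_le_one (by simpa using hV.2)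
  · filter_upwards [hlt] with x hx h0
    rw [h0, ENNReal.zero_rpow_of_neg (by linarith)] at hx
    exact lt_irrefl _ hx

theorem T_lip {M a a' : ℝ} (hM : 0 ≤ M) :
    |min (a ^ 2) (M ^ 2) - min (a' ^ 2) (M ^ 2)| ≤ 2 * M * |a - a'| := by
  have key : ∀ x y : ℝ, 0 ≤ x → x ≤ y →
      min (y ^ 2) (M ^ 2) - min (x ^ 2) (M ^ 2) ≤ 2 * M * (y - x) ∧
        0 ≤ min (y ^ 2) (M ^ 2) - min (x ^ 2) (M ^ 2) := by
    intro x y hx hxy
    constructor
    · rcases le_total x M with h | h
      · rw [min_eq_left (by nlinarith : x ^ 2 ≤ M ^ 2)]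
        rcases le_total y M with h' | h'
        · rw [min_eq_left (by nlinarith : y ^ 2 ≤ M ^ 2)]
          nlinarith
        · rw [min_eq_right (by nlinarith : M ^ 2 ≤ y ^ 2)]
          nlinarith
      · rw [min_eq_right (by nlinarith : M ^ 2 ≤ x ^ 2),
          min_eq_right (by nlinarith : M ^ 2 ≤ y ^ 2)]
        nlinarith
    · exact sub_nonneg.2 (min_le_min_right _ (by nlinarith))
  rw [← sq_abs a, ← sq_abs a']
  rcases le_total |a| |a'| with h | h
  · obtain ⟨k1, k2⟩ := key _ _ (abs_nonneg a) h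
    rw [abs_sub_comm, abs_of_nonneg k2]
    refine k1.trans (mul_le_mul_of_nonneg_left ?_ (by positivity))
    rw [abs_sub_comm]
    exact abs_sub_abs_le_abs_sub _ _
  · obtain ⟨k1, k2⟩ := key _ _ (abs_nonneg a') h
    rw [abs_of_nonneg k2]
    exact k1.trans (mul_le_mul_of_nonneg_left (abs_sub_abs_le_abs_sub _ _) (by positivity))

theorem T_le {M a : ℝ} (hM : 0 ≤ M) : |min (a ^ 2) (M ^ 2)| ≤ 2 * M * |a| := by
  have := T_lip (a := a) (a' := 0) hM
  rwa [min_eq_left (by nlinarith : (0 : ℝ) ^ 2 ≤ M ^ 2), sub_zero, zero_pow two_ne_zero,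
    sub_zero] at this

theorem memLp_dom {f g : X d → ℝ} {c : ℝ} (hg : MemLp g 2 volume)
    (hf : AEStronglyMeasurable f volume) (h : ∀ x, |f x| ≤ c * |g x|) : MemLp f 2 volume :=
  hg.of_le_mul (c := c) hf (Eventually.of_forall fun x => by simpa using h x)

theorem ofReal_int_le {f : X d → ℝ} (hf : Integrable f volume) :
    ENNReal.ofReal (∫ x, f x) ≤ ∫⁻ x, ENNReal.ofReal (f x) := by
  rw [integral_eq_lintegral_pos_part_sub_lintegral_neg_part hf]
  exact (ENNReal.ofReal_le_ofReal (sub_le_self _ ENNReal.toReal_nonneg)).trans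
    ENNReal.ofReal_toReal_le

theorem fixed {p : ℝ} (hp : 0 < p) {V : ℕ → X d → ℝ≥0∞} (hV : ∀ n, Adm p (V n))
    {Z : X d → ℝ} (hZm : Measurable Z) (hZ : MemLp Z 2 volume)
    (hw : WConv (fun n x => (V n x ^ (-p / 2)).toReal) Z)
    {u : ℕ → X d → ℝ} {v : X d → ℝ} (hu : ∀ n, MemLp (u n) 2 volume) (hv : MemLp v 2 volume)
    (hc : Tendsto (fun n => ∫ x, (u n x - v x) * (u n x - v x)) atTop (𝓝 0))
    {A : ℝ≥0∞} {ε M : ℝ} (hε : 0 < ε) (hM : 0 ≤ M)
    (hA : A < ∫⁻ x, ENNReal.ofReal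
      (min 1 (M * |v x|) * max (Z x) ε ^ (-(2 / p)) * min (v x ^ 2) (M ^ 2))) :
    ∀ᶠ n in atTop, A < ∫⁻ x, V n x * ENNReal.ofReal (u n x ^ 2) := by
  set b := 2 / p with hb
  have hb0 : 0 < b := by positivity
  have hs : ∀ x, 0 < max (Z x) ε := fun x => lt_max_of_lt_right hε
  have hsm : Measurable fun x => max (Z x) ε := hZm.max measurable_const
  have hφ0 : ∀ x, 0 ≤ min 1 (M * |v x|) := fun x => le_min zero_le_one (by positivity)
  have hφm : AEMeasurable (fun x => min 1 (M * |v x|)) volume :=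
    aemeasurable_const.min (hv.aemeasurable.abs.const_mul _)
  have hpow : ∀ (c : ℝ), 0 ≤ c → ∀ x, max (Z x) ε ^ (-c) ≤ ε ^ (-c) := fun c hc x =>
    Real.rpow_le_rpow_of_nonpos hε (le_max_right _ _) (by linarith)
  have hT : ∀ {w : X d → ℝ}, MemLp w 2 volume →
      MemLp (fun x => min (w x ^ 2) (M ^ 2)) 2 volume := fun {w} hw =>
    memLp_dom hw ((hw.aemeasurable.pow_const 2).min aemeasurable_const).aestronglyMeasurable
      fun x => T_le hM
  let α : X d → ℝ := fun x => min 1 (M * |v x|) * max (Z x) ε ^ (-b)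
  let β : X d → ℝ := fun x => min 1 (M * |v x|) * (b * max (Z x) ε ^ (-b - 1))
  have hα0 : ∀ x, 0 ≤ α x := fun x => mul_nonneg (hφ0 x) (Real.rpow_pos_of_pos (hs x) _).le
  have hβ0 : ∀ x, 0 ≤ β x := fun x =>
    mul_nonneg (hφ0 x) (mul_nonneg hb0.le (Real.rpow_pos_of_pos (hs x) _).le)
  have hα : MemLp α 2 volume := by
    refine memLp_dom (c := M * ε ^ (-b)) hv
      (hφm.mul (hsm.pow_const _).aemeasurable).aestronglyMeasurable fun x => ?_
    rw [abs_of_nonneg (hα0 x)]
    calc α x ≤ (M * |v x|) * ε ^ (-b) := mul_le_mul (min_le_right _ _) (hpow b hb0.le x)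
          (Real.rpow_pos_of_pos (hs x) _).le (by positivity)
      _ = _ := by ring
  have hβm : AEMeasurable β volume := hφm.mul ((hsm.pow_const _).const_mul _).aemeasurable
  have hβ1 : ∀ x, β x ≤ b * ε ^ (-(b + 1)) := fun x => by
    have h1 := hpow (b + 1) (by linarith) x
    have e : -b - 1 = -(b + 1) := by ring
    calc β x ≤ 1 * (b * max (Z x) ε ^ (-b - 1)) := mul_le_mul_of_nonneg_right (min_le_left _ _)
          (mul_nonneg hb0.le (Real.rpow_pos_of_pos (hs x) _).le)
      _ ≤ _ := by rw [one_mul, e]; exact mul_le_mul_of_nonneg_left h1 hb0.le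
  have hβ : ∀ {w : X d → ℝ}, MemLp w 2 volume → MemLp (fun x => β x * w x) 2 volume :=
    fun {w} hw => memLp_dom (c := b * ε ^ (-(b + 1))) hw
      (hβm.mul hw.aemeasurable).aestronglyMeasurable fun x => by
        rw [abs_mul, abs_of_nonneg (hβ0 x)]
        exact mul_le_mul_of_nonneg_right (hβ1 x) (abs_nonneg _)
  let z : ℕ → X d → ℝ := fun n x => (V n x ^ (-p / 2)).toReal
  have hz : ∀ n, MemLp (z n) 2 volume := fun n => (Zn hp (hV n)).1
  let g : ℕ → X d → ℝ := fun n x => (1 + b) * α x - β x * z n x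
  have hg : ∀ n, MemLp (g n) 2 volume := fun n => (hα.const_mul _).sub (hβ (hz n))
  have hgC : ∀ n, ∫ x, g n x * g n x ≤
      2 * (1 + b) ^ 2 * (∫ x, α x * α x) + 2 * (b * ε ^ (-(b + 1))) ^ 2 := by
    intro n
    have h1 : ∫ x, g n x * g n x ≤ ∫ x, (2 * (1 + b) ^ 2 * (α x * α x) +
        2 * (b * ε ^ (-(b + 1))) ^ 2 * (z n x * z n x)) := by
      refine integral_mono (int_mul (hg n) (hg n)) (((int_mul hα hα).const_mul _).add
        ((int_mul (hz n) (hz n)).const_mul _)) fun x => ?_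
      have h2 : β x ^ 2 ≤ (b * ε ^ (-(b + 1))) ^ 2 := pow_le_pow_left₀ (hβ0 x) (hβ1 x) 2
      have h3 := mul_le_mul_of_nonneg_right h2 (mul_self_nonneg (z n x))
      show ((1 + b) * α x - β x * z n x) * ((1 + b) * α x - β x * z n x) ≤ _
      nlinarith [sq_nonneg ((1 + b) * α x + β x * z n x)]
    rw [integral_add ((int_mul hα hα).const_mul _) ((int_mul (hz n) (hz n)).const_mul _),
      integral_const_mul, integral_const_mul] at h1
    have h4 := mul_le_mul_of_nonneg_left (Zn hp (hV n)).2.1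
      (by positivity : 0 ≤ 2 * (b * ε ^ (-(b + 1))) ^ 2)
    linarith
  let D : ℕ → X d → ℝ := fun n x => min (u n x ^ 2) (M ^ 2) - min (v x ^ 2) (M ^ 2)
  have hD : ∀ n, MemLp (D n) 2 volume := fun n => (hT (hu n)).sub (hT hv)
  have hD0 : Tendsto (fun n => ∫ x, D n x * D n x) atTop (𝓝 0) := by
    have h1 := hc.const_mul ((2 * M) ^ 2)
    rw [mul_zero] at h1
    refine squeeze_zero (fun n => integral_nonneg fun x => mul_self_nonneg _) (fun n => ?_) h1
    rw [← integral_const_mul]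
    refine integral_mono (int_mul (hD n) (hD n))
      ((int_mul ((hu n).sub hv) ((hu n).sub hv)).const_mul _) fun x => ?_
    have h2 := T_lip (a := u n x) (a' := v x) hM
    have h3 := mul_self_le_mul_self (abs_nonneg _) h2
    rw [abs_mul_abs_self] at h3
    have h4 := abs_mul_abs_self (u n x - v x)
    show D n x * D n x ≤ (2 * M) ^ 2 * ((u n x - v x) * (u n x - v x))
    rw [← h4]
    nlinarith
  have t1 := prod_tendsto hg hD hgC hD0
  have t2 := hw _ (hβ (hT hv))
  have t3 := (t1.add_const ((1 + b) * ∫ x, α x * min (v x ^ 2) (M ^ 2))).sub t2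
  have e1 : ∀ n, (∫ x, g n x * D n x) + (1 + b) * (∫ x, α x * min (v x ^ 2) (M ^ 2)) -
      ∫ x, z n x * (β x * min (v x ^ 2) (M ^ 2)) = ∫ x, g n x * min (u n x ^ 2) (M ^ 2) := by
    intro n
    have i1 : Integrable (fun x => g n x * D n x + (1 + b) * (α x * min (v x ^ 2) (M ^ 2)))
        volume := (int_mul (hg n) (hD n)).add ((int_mul hα (hT hv)).const_mul _)
    rw [← integral_const_mul, ← integral_add (int_mul (hg n) (hD n))
      ((int_mul hα (hT hv)).const_mul _), ← integral_sub i1 (int_mul (hz n) (hβ (hT hv)))]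
    refine integral_congr_ae (Eventually.of_forall fun x => ?_)
    simp only [g, D]
    ring
  have hA2 : A < ENNReal.ofReal (0 + (1 + b) * (∫ x, α x * min (v x ^ 2) (M ^ 2)) -
      ∫ x, Z x * (β x * min (v x ^ 2) (M ^ 2))) := by
    have hT0 : ∀ x, 0 ≤ min (v x ^ 2) (M ^ 2) := fun x => le_min (by positivity) (by positivity)
    rw [← ofReal_integral_eq_lintegral_ofReal (int_mul hα (hT hv))
      (Eventually.of_forall fun x => mul_nonneg (hα0 x) (hT0 x))] at hA
    refine hA.trans_le (ENNReal.ofReal_le_ofReal ?_)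
    have h1 : ∫ x, Z x * (β x * min (v x ^ 2) (M ^ 2)) ≤
        ∫ x, b * (α x * min (v x ^ 2) (M ^ 2)) := by
      refine integral_mono (int_mul hZ (hβ (hT hv))) ((int_mul hα (hT hv)).const_mul _)
        fun x => ?_
      have h2 : Z x * β x ≤ b * α x := by
        have h3 : max (Z x) ε * β x = b * α x := by
          simp only [α, β]
          rw [Real.rpow_sub_one (hs x).ne']
          field_simp [(hs x).ne']
        rw [← h3]
        exact mul_le_mul_of_nonneg_right (le_max_left _ _) (hβ0 x)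
      have h4 := mul_le_mul_of_nonneg_right h2 (hT0 x)
      show Z x * (β x * min (v x ^ 2) (M ^ 2)) ≤ b * (α x * min (v x ^ 2) (M ^ 2))
      linarith
    rw [integral_const_mul] at h1
    linarith
  have t4 := ((ENNReal.continuous_ofReal.tendsto _).comp t3).eventually (lt_mem_nhds hA2)
  filter_upwards [t4] with n hn
  have hn' : A < ENNReal.ofReal (∫ x, g n x * min (u n x ^ 2) (M ^ 2)) := by
    rw [← e1 n]; exact hn
  refine hn'.trans_le ((ofReal_int_le (int_mul (hg n) (hT (hu n)))).trans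
    (lintegral_mono_ae ?_))
  filter_upwards [(Zn hp (hV n)).2.2] with x hx
  have hT0 : 0 ≤ min (u n x ^ 2) (M ^ 2) := le_min (by positivity) (by positivity)
  by_cases htop : V n x = ⊤
  · by_cases h0 : u n x = 0
    · simp [h0, min_eq_left (sq_nonneg M)]
    · rw [htop, ENNReal.top_mul (by simpa using h0)]
      exact le_top
  · have hy : 0 < (V n x).toReal := ENNReal.toReal_pos hx htop
    have hz1 : z n x = (V n x).toReal ^ (-p / 2) := (ENNReal.toReal_rpow _ _).symm
    have hz0 : 0 < z n x := by rw [hz1]; exact Real.rpow_pos_of_pos hy _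
    have hz2 : z n x ^ (-b) = (V n x).toReal := by
      rw [hz1, ← Real.rpow_mul hy.le]
      have : -p / 2 * -b = 1 := by rw [hb]; field_simp
      rw [this, Real.rpow_one]
    have h1 := tangent hz0 (hs x) hb0
    rw [hz2] at h1
    have h2 : g n x ≤ (V n x).toReal := by
      have h3 := mul_le_mul_of_nonneg_left h1 (hφ0 x)
      have h4 := mul_le_mul_of_nonneg_right (min_le_left 1 (M * |v x|)) hy.le
      simp only [g, α, β]
      nlinarith
    rw [← ENNReal.ofReal_toReal htop, ← ENNReal.ofReal_mul hy.le]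
    exact ENNReal.ofReal_le_ofReal (mul_le_mul h2 (min_le_left _ _) hT0 hy.le)

end Pot

theorem pot_lsc {p : ℝ} (hp : 0 < p) {V : ℕ → X d → ℝ≥0∞} (hV : ∀ n, Adm p (V n))
    {Z : X d → ℝ} (hZm : Measurable Z) (hZ : MemLp Z 2 volume)
    (hw : WConv (fun n x => (V n x ^ (-p / 2)).toReal) Z)
    {u : ℕ → X d → ℝ} {v : X d → ℝ} (hu : ∀ n, MemLp (u n) 2 volume) (hv : MemLp v 2 volume)
    (hc : Tendsto (fun n => ∫ x, (u n x - v x) * (u n x - v x)) atTop (𝓝 0))
    {A : ℝ≥0∞} (hA : A < ∫⁻ x, ENNReal.ofReal (Z x) ^ (-2 / p) * ENNReal.ofReal (v x ^ 2)) :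
    ∀ᶠ n in atTop, A < ∫⁻ x, V n x * ENNReal.ofReal (u n x ^ 2) := by
  have hb0 : 0 < 2 / p := by positivity
  let F : ℕ → X d → ℝ≥0∞ := fun m x => ENNReal.ofReal
    (min 1 (((m : ℝ) + 1) * |v x|) * max (Z x) ((m : ℝ) + 1)⁻¹ ^ (-(2 / p)) *
      min (v x ^ 2) (((m : ℝ) + 1) ^ 2))
  have hFm : ∀ m, AEMeasurable (F m) volume := fun m =>
    (((aemeasurable_const.min (hv.aemeasurable.abs.const_mul _)).mul
      ((hZm.max measurable_const).pow_const _).aemeasurable).mul
      ((hv.aemeasurable.pow_const 2).min aemeasurable_const)).ennreal_ofReal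
  have hm1 : Tendsto (fun m : ℕ => (m : ℝ) + 1) atTop atTop :=
    tendsto_atTop_add_const_right _ _ tendsto_natCast_atTop_atTop
  have hlim : ∀ x, Tendsto (fun m => F m x) atTop
      (𝓝 (ENNReal.ofReal (Z x) ^ (-2 / p) * ENNReal.ofReal (v x ^ 2))) := by
    intro x
    by_cases h0 : v x = 0
    · simp [F, h0]
    have hv0 : 0 < |v x| := abs_pos.2 h0
    have e1 : ∀ᶠ m : ℕ in atTop, min 1 (((m : ℝ) + 1) * |v x|) = 1 := by
      filter_upwards [(hm1.atTop_mul_const hv0).eventually_ge_atTop 1] with m hm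
      exact min_eq_left hm
    have e2 : ∀ᶠ m : ℕ in atTop, min (v x ^ 2) (((m : ℝ) + 1) ^ 2) = v x ^ 2 := by
      filter_upwards [hm1.eventually_ge_atTop |v x|] with m hm
      rw [← sq_abs (v x)]
      exact min_eq_left (pow_le_pow_left₀ hv0.le hm 2)
    rw [neg_div]
    rcases lt_or_ge 0 (Z x) with hz | hz
    · have e3 : ∀ᶠ m : ℕ in atTop, max (Z x) ((m : ℝ) + 1)⁻¹ = Z x := by
        filter_upwards [hm1.inv_tendsto_atTop.eventually (ge_mem_nhds hz)] with m hm
        exact max_eq_left hm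
      refine tendsto_const_nhds.congr' ?_
      filter_upwards [e1, e2, e3] with m k1 k2 k3
      simp only [F]
      rw [k1, k2, k3, one_mul, ENNReal.ofReal_mul (Real.rpow_pos_of_pos hz _).le,
        ENNReal.ofReal_rpow_of_pos hz]
    · rw [ENNReal.ofReal_of_nonpos hz, ENNReal.zero_rpow_of_neg (by linarith),
        ENNReal.top_mul (by simpa using h0)]
      have t1 : Tendsto (fun m : ℕ => ((m : ℝ) + 1) ^ (2 / p) * v x ^ 2) atTop atTop :=
        ((tendsto_rpow_atTop hb0).comp hm1).atTop_mul_const (by positivity)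
      refine (ENNReal.tendsto_ofReal_atTop.comp t1).congr' ?_
      filter_upwards [e1, e2] with m k1 k2
      have hm : (0 : ℝ) < (m : ℝ) + 1 := by positivity
      simp only [F, Function.comp]
      rw [k1, k2, one_mul, max_eq_right (hz.trans (inv_pos.2 hm).le), Real.inv_rpow hm.le,
        Real.rpow_neg hm.le, inv_inv]
  have h1 : A < liminf (fun m => ∫⁻ x, F m x) atTop := by
    refine hA.trans_le (le_trans (le_of_eq ?_) (lintegral_liminf_le' hFm))
    exact lintegral_congr fun x => (hlim x).liminf_eq.symm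
  obtain ⟨m, hm⟩ := (eventually_lt_of_lt_liminf h1).exists
  exact Pot.fixed hp hV hZm hZ hw hu hv hc (ε := ((m : ℝ) + 1)⁻¹) (M := (m : ℝ) + 1)
    (by positivity) (by positivity) hm

end Pool.Agent.H639Z.OP
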